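import Pool.Agent.X267.BB.Present

set_option autoImplicit false

/-! Projective modules over integral group rings with presentation matrices which are integral, up to
group elements, off one row and some columns (or off one column and some rows). -/

namespace Pool.Agent.Results.MP_551055_al.BorderedPresentations

open TH57.FF TH57.Thr TH57.TT2 TH6.LF Matrix Pool.Agent.X267.BB

variable {G : Type} [Group G] {m k : ℕ}

/-- `A i j = N i j (g i) (h j)` off the row `i₀` and the set `Q` of columns -/
def IntegralOff (A : Matrix (Fin m) (Fin k) (MonoidAlgebra ℤ G)) (g : Fin m → G) (h : Fin k → G)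
    (N : Matrix (Fin m) (Fin k) ℤ) (R : Finset (Fin m)) (Q : Finset (Fin k)) : Prop :=
  ∀ i j, i ∉ R → j ∉ Q → A i j = MonoidAlgebra.single (g i * h j) (N i j)

/-- Off one row `i₀` and a set `Q` of columns the matrix is integral up to the factors `g i`, `h j`;
and `Q` has at most one element or every integral relation between the rows `i ≠ i₀` of `N`,
restricted to the columns outside `Q`, is a relation between the rows `(g i)⁻¹ A i` -/
def RowBordered (A : Matrix (Fin m) (Fin k) (MonoidAlgebra ℤ G)) (g : Fin m → G) (h : Fin k → G)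
    (N : Matrix (Fin m) (Fin k) ℤ) : Prop :=
  ∃ (i₀ : Fin m) (Q : Finset (Fin k)), IntegralOff A g h N {i₀} Q ∧
    (Q.card ≤ 1 ∨ ∀ t : Fin m → ℤ, t i₀ = 0 → (∀ j, j ∉ Q → ∑ i, t i * N i j = 0) →
      ∀ j ∈ Q, ∑ i, MonoidAlgebra.single (g i)⁻¹ (t i) * A i j = 0)

/-- the same with rows and columns interchanged -/
def ColBordered (A : Matrix (Fin m) (Fin k) (MonoidAlgebra ℤ G)) (g : Fin m → G) (h : Fin k → G)
    (N : Matrix (Fin m) (Fin k) ℤ) : Prop :=
  ∃ (j₀ : Fin k) (Q : Finset (Fin m)), IntegralOff A g h N Q {j₀} ∧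
    (Q.card ≤ 1 ∨ ∀ t : Fin k → ℤ, t j₀ = 0 → (∀ i, i ∉ Q → ∑ j, N i j * t j = 0) →
      ∀ i ∈ Q, ∑ j, A i j * MonoidAlgebra.single (h j)⁻¹ (t j) = 0)

/-- Let `P` be the `ℤG`-module with the presentation matrix `A` (the cokernel of the map given by
right multiplication of row vectors with `A`).
(1) For every group `G`: if `P` is projective and `A` is integral up to factors `g i`, `h j` off one
row, or off one column, then `P` is stably free.
(2) Suppose that the group rings of `G` over the prime fields of positive characteristic have no zero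
divisors. If `A` is row-bordered and `P` is torsion-free, then `P` has a free resolution of length
two by finitely generated modules. If `A` is row-bordered or column-bordered and `P` is projective,
then `P` is stably free. -/
theorem result (G : Type) [Group G] (m k : ℕ) (A : Matrix (Fin m) (Fin k) (MonoidAlgebra ℤ G))
    (g : Fin m → G) (h : Fin k → G) (N : Matrix (Fin m) (Fin k) ℤ) (P : Type) [AddCommGroup P]
    [Module (MonoidAlgebra ℤ G) P]
    (e : P ≃ₗ[MonoidAlgebra ℤ G]
      (Fin k → MonoidAlgebra ℤ G) ⧸ LinearMap.range A.vecMulLinear) :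
    (Module.Projective (MonoidAlgebra ℤ G) P →
      ((∃ i₀, IntegralOff A g h N {i₀} ∅) ∨ ∃ j₀, IntegralOff A g h N ∅ {j₀}) →
      ∃ a b : ℕ, Nonempty ((P × (Fin a → MonoidAlgebra ℤ G)) ≃ₗ[MonoidAlgebra ℤ G]
        (Fin b → MonoidAlgebra ℤ G))) ∧
    ((∀ p : ℕ, p.Prime → NoZeroDivisors (MonoidAlgebra (ZMod p) G)) →
      (RowBordered A g h N → (∀ (s : MonoidAlgebra ℤ G) (x : P), s • x = 0 → s = 0 ∨ x = 0) →
        FR (MonoidAlgebra ℤ G) 2 P) ∧
      (RowBordered A g h N ∨ ColBordered A g h N → Module.Projective (MonoidAlgebra ℤ G) P →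
        ∃ a b : ℕ, Nonempty ((P × (Fin a → MonoidAlgebra ℤ G)) ≃ₗ[MonoidAlgebra ℤ G]
          (Fin b → MonoidAlgebra ℤ G)))) := by
  classical
  have hfin : ∀ (hP : Module.Projective (MonoidAlgebra ℤ G) P),
      FR (MonoidAlgebra ℤ G) 1 (Im A) →
      ∃ a b : ℕ, Nonempty ((P × (Fin a → MonoidAlgebra ℤ G)) ≃ₗ[MonoidAlgebra ℤ G]
        (Fin b → MonoidAlgebra ℤ G)) := by
    intro hP h1
    exact stablyFree_of_FR 2 P hP (FR_equiv 2 e.symm (FR_coker 1 A h1))
  refine ⟨?_, ?_⟩
  · intro hP H
    obtain ⟨Y, hY⟩ := regular_of_projective A P hP e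
    rcases H with ⟨i₀, H⟩ | ⟨j₀, H⟩
    · apply hfin hP
      apply FR_mono0
      exact free_grp A Y hY i₀ g h N fun i j hi =>
        H i j (by rwa [Finset.mem_singleton]) (Finset.notMem_empty _)
    · apply hfin hP
      have hY' : adj A * adj Y * adj A = adj A := by
        rw [Matrix.mul_assoc, ← adj_mul, ← adj_mul, hY]
      apply FR_of_adj A Y hY
      apply FR_mono0
      refine free_grp (adj A) (adj Y) hY' j₀ (fun j => (h j)⁻¹) (fun i => (g i)⁻¹)
        (fun j i => N i j) fun j i hj => ?_
      rw [adj_apply, H i j (Finset.notMem_empty _) (by rwa [Finset.mem_singleton]), bar_single,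
        _root_.mul_inv_rev]
  · intro hG
    have hdom := domain hG
    have hsatR : ∀ {m' k' : Type} [Fintype m'] [Fintype k'] [DecidableEq k']
        (A : Matrix m' k' (MonoidAlgebra ℤ G))
        (Y : Matrix k' m' (MonoidAlgebra ℤ G)), A * Y * A = A →
        ∀ (s : MonoidAlgebra ℤ G) (v : k' → MonoidAlgebra ℤ G), s ≠ 0 → s • v ∈ Im A →
          v ∈ Im A := by
      intro m' k' _ _ _ A Y hY s v hs hv
      obtain ⟨y, hy⟩ := hv
      have hy' : y ᵥ* A = s • v := hy
      have h1 : (s • v) ᵥ* (Y * A) = s • v := by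
        rw [← hy', Matrix.vecMul_vecMul, ← Matrix.mul_assoc, hY]
      rw [Matrix.smul_vecMul] at h1
      refine ⟨v ᵥ* Y, ?_⟩
      show (v ᵥ* Y) ᵥ* A = v
      rw [Matrix.vecMul_vecMul]
      funext j
      have h2 : s * ((v ᵥ* (Y * A)) j - v j) = 0 := by
        rw [mul_sub, sub_eq_zero]
        exact congrFun h1 j
      exact sub_eq_zero.1 ((mul_eq_zero.1 h2).resolve_left hs)
    refine ⟨?_, ?_⟩
    · rintro ⟨i₀, Q, H, hQ⟩ htf
      refine FR_equiv 2 e.symm (FR_coker 1 A ?_)
      refine FR_grp hG A i₀ Q g h N (fun i j hi hj => H i j (by rwa [Finset.mem_singleton]) hj)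
        ?_ hQ
      intro s v hs hv
      have h1 : s • e.symm ((LinearMap.range A.vecMulLinear).mkQ v) = 0 := by
        rw [← map_smul, ← map_smul, Submodule.mkQ_apply, (Submodule.Quotient.mk_eq_zero _).2 hv,
          map_zero]
      rcases htf _ _ h1 with h2 | h2
      · exact absurd h2 hs
      · rw [LinearEquiv.map_eq_zero_iff, Submodule.mkQ_apply,
          Submodule.Quotient.mk_eq_zero] at h2
        exact h2
    · rintro (⟨i₀, Q, H, hQ⟩ | ⟨j₀, Q, H, hQ⟩) hP
      · obtain ⟨Y, hY⟩ := regular_of_projective A P hP e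
        exact hfin hP (FR_grp hG A i₀ Q g h N
          (fun i j hi hj => H i j (by rwa [Finset.mem_singleton]) hj) (hsatR A Y hY) hQ)
      · obtain ⟨Y, hY⟩ := regular_of_projective A P hP e
        have hY' : adj A * adj Y * adj A = adj A := by
          rw [Matrix.mul_assoc, ← adj_mul, ← adj_mul, hY]
        apply hfin hP
        apply FR_of_adj A Y hY
        refine FR_grp hG (adj A) j₀ Q (fun j => (h j)⁻¹) (fun i => (g i)⁻¹) (fun j i => N i j)
          ?_ (hsatR (adj A) (adj Y) hY') ?_
        · intro j i hj hi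
          rw [adj_apply, H i j hi (by rwa [Finset.mem_singleton]), bar_single,
            _root_.mul_inv_rev]
        · rcases hQ with hQ | hQ
          · exact Or.inl hQ
          · right
            intro t ht ht0 i hi
            have h3 := hQ t ht (fun i hi => by
              rw [← ht0 i hi]
              exact Finset.sum_congr rfl fun j _ => mul_comm _ _) i hi
            have h4 := congrArg bar h3
            rw [bar_sum, bar_zero] at h4
            rw [← h4]
            refine Finset.sum_congr rfl fun j _ => ?_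
            rw [bar_mul, bar_single, adj_apply]

end Pool.Agent.Results.MP_551055_al.BorderedPresentations
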