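import Mathlib
import Pool.Agent.X267.CC.Modl

set_option autoImplicit false

/-!
Projective modules over integral group rings given by idempotent matrices which are monomial with
constant coefficients outside one row and one column.
-/

namespace Pool.Agent.Results.MP_551055_al.ConstantCore

open MonoidAlgebra
open Pool.Agent.X267.CC
open Matrix (fromBlocks fromBlocks_one)

universe u

/-- stably free modules over the integral group ring -/
def StablyFree (G : Type u) [Group G] (P : Type u) [AddCommGroup P] [Module (MonoidAlgebra ℤ G) P] :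
    Prop :=
  ∃ a b : ℕ, Nonempty ((P × (Fin a → MonoidAlgebra ℤ G)) ≃ₗ[MonoidAlgebra ℤ G]
    (Fin b → MonoidAlgebra ℤ G))

theorem inj_alg (G : Type u) [Group G] : Function.Injective (algebraMap ℤ (MonoidAlgebra ℤ G)) := by
  intro a b hab
  have h1 := congrArg (fun x : MonoidAlgebra ℤ G => x.coeff 1) hab
  have h2 : ∀ z : ℤ, (algebraMap ℤ (MonoidAlgebra ℤ G) z).coeff 1 = z := by
    intro z
    rw [MonoidAlgebra.coe_algebraMap]
    simp
  simp only [h2] at h1
  exact h1

theorem core (G : Type u) [Group G] (n : ℕ) (E : Matrix (Fin n) (Fin n) (MonoidAlgebra ℤ G))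
    (hE : E * E = E) (p : Fin n → Prop) [DecidablePred p] [Unique {i // p i}]
    (g : Fin n → G) (c : Fin n → Fin n → ℤ)
    (h : ∀ i j, ¬ p i → ¬ p j → E i j = single (g i * (g j)⁻¹) (c i j))
    (hg : g (default : {i // p i}) = 1) :
    (∃ r : ℕ, Nonempty (LinearMap.range
      (E.map (MonoidAlgebra.mapRingHom G (Int.castRingHom ℚ))).vecMulLinear
        ≃ₗ[MonoidAlgebra ℚ G] (Fin r → MonoidAlgebra ℚ G))) ∧
    ((∀ z : ℤ, z ≠ 0 → z ≠ 1 →
      E (default : {i // p i}) (default : {i // p i}) ≠ single 1 z) →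
      StablyFree G (LinearMap.range E.vecMulLinear)) := by
  classical
  obtain ⟨P, Q, X, U, V, N, hPQ, hQP, hB, hX⟩ := conj_block E p g c h
  have hX0 : X default default = E (default : {i // p i}) (default : {i // p i}) := by
    have h1 := hX default default
    rw [hg, inv_one, ← one_def, one_mul, mul_one] at h1
    exact h1
  set E' := fromBlocks X U V (1 - N.map (algebraMap ℤ (MonoidAlgebra ℤ G))) with hE'
  have hid : E' * E' = E' := by
    rw [← hB]
    calc Q * E * P * (Q * E * P) = Q * E * (P * Q) * (E * P) := by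
          simp only [Matrix.mul_assoc]
      _ = Q * (E * E) * P := by rw [hPQ]; simp only [Matrix.mul_assoc, Matrix.mul_one]
      _ = Q * E * P := by rw [hE]
  refine ⟨?_, ?_⟩
  · obtain ⟨r, A', B', h1, h2⟩ := (dich hid).1
    have hPQ' : P.map (toQ G) * Q.map (toQ G) = 1 := by
      rw [← Matrix.map_mul, hPQ]
      exact (RingHom.mapMatrix (toQ G)).map_one
    have hQP' : Q.map (toQ G) * P.map (toQ G) = 1 := by
      rw [← Matrix.map_mul, hQP]
      exact (RingHom.mapMatrix (toQ G)).map_one
    have hB' : Q.map (toQ G) * E.map (toQ G) * P.map (toQ G) = E'.map (toQ G) := by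
      rw [← Matrix.map_mul, ← Matrix.map_mul, hB]
    obtain ⟨h3, h4⟩ := split_conj hPQ' hQP' hB' h1 h2
    have hEQ : E.map (toQ G) * E.map (toQ G) = E.map (toQ G) := by
      rw [← Matrix.map_mul, hE]
    exact ⟨r, free_of_split hEQ _ _ h3 h4⟩
  · intro hz
    rcases trich hid with ⟨b, hb⟩ | ⟨b, hb⟩ | ⟨z, hz0, hz1, hzX⟩
    · obtain ⟨r, A', B', h1, h2⟩ := split_nilp (inj_alg G) hid b hb
      obtain ⟨h3, h4⟩ := split_conj hPQ hQP hB h1 h2
      obtain ⟨e⟩ := free_of_split hE _ _ h3 h4
      refine ⟨0, r, ⟨?_⟩⟩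
      exact LinearEquiv.trans (LinearEquiv.prodUnique) e
    · have hcomp : fromBlocks (1 - X) (-U) (-V)
          (1 - (1 - N).map (algebraMap ℤ (MonoidAlgebra ℤ G))) = 1 - E' := by
        rw [hE', ← fromBlocks_one, fb_sub, Matrix.map_sub _ (fun a b => map_sub _ a b),
          map_one_mat, zero_sub, zero_sub]
      have h2' : (1 - E') * (1 - E') = 1 - E' := by
        have : (1 - E') * (1 - E') = 1 - E' - (E' - E' * E') := by noncomm_ring
        rw [this, hid, sub_self, sub_zero]
      obtain ⟨r, A', B', h1, h2⟩ := split_nilp (inj_alg G) (X := 1 - X) (U := -U) (V := -V)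
        (N := 1 - N) (by rw [hcomp, h2']) b hb
      rw [hcomp] at h1
      have hB1 : Q * (1 - E) * P = 1 - E' := by
        rw [Matrix.mul_sub, Matrix.sub_mul, Matrix.mul_one, hQP, hB]
      obtain ⟨h3, h4⟩ := split_conj hPQ hQP hB1 h1 h2
      exact ⟨r, n, compl_of_split hE _ _ h3 h4⟩
    · exact absurd (hX0.symm.trans hzX) (hz z hz0 hz1)

/-- **Main theorem.** -/
theorem result (G : Type u) [Group G] (n : ℕ) (E : Matrix (Fin n) (Fin n) (MonoidAlgebra ℤ G))
    (hE : IsIdempotentElem E) (i₀ : Fin n) (g : Fin n → G) (c : Fin n → Fin n → ℤ)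
    (h : ∀ i j, i ≠ i₀ → j ≠ i₀ → E i j = single (g i * (g j)⁻¹) (c i j)) :
    (∃ r : ℕ, Nonempty (LinearMap.range
      (E.map (MonoidAlgebra.mapRingHom G (Int.castRingHom ℚ))).vecMulLinear
        ≃ₗ[MonoidAlgebra ℚ G] (Fin r → MonoidAlgebra ℚ G))) ∧
    ((∀ z : ℤ, z ≠ 0 → z ≠ 1 → E i₀ i₀ ≠ single 1 z) →
      StablyFree G (LinearMap.range E.vecMulLinear)) := by
  have hd : ((default : {i // i = i₀}) : Fin n) = i₀ := (default : {i // i = i₀}).2
  have h1 := core G n E hE (fun i => i = i₀) (Function.update g i₀ 1) c (by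
      intro i j hi hj
      rw [Function.update_of_ne hi, Function.update_of_ne hj]
      exact h i j hi hj) (by rw [hd, Function.update_self])
  rw [hd] at h1
  exact h1

end Pool.Agent.Results.MP_551055_al.ConstantCore
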