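import Pool.Agent.Y75.EK.Reduct2
import Pool.Agent.Y75.EK.Pieces
import Pool.Agent.Y75.EK.Uniq

/-!
# Positive definite hermitian forms on projective modules over integral group rings

Every positive definite hermitian form on a finitely generated `ℤG`-module is the orthogonal sum of
finitely many forms which are induced from finitely generated subgroups of `G`, on modules whose
underlying lattices are orthogonally indecomposable; and this in only one way. If the module is
projective the pieces are projective over the group rings of the subgroups, and if the form is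
nonsingular, the pieces are nonsingular.
-/

set_option autoImplicit false

namespace Pool.Agent.Results.MP_551055_al.DefiniteForms

open Pool.Agent.Y75.SV Pool.Agent.Y75.EK MonoidAlgebra

/-- The two decompositions, of the form `φ` on `M` and of the form `φ'` on `M'`, correspond to each
other under `α`: there is a bijection `σ` of the index sets such that `α` maps `L i` onto a translate
`g L' (σ i)`, and `K i = g K' (σ i) g⁻¹` for the same `g`. -/
def Correspond {G : Type} [Group G] {M M' : Type} [AddCommGroup M] [AddCommGroup M']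
    [Module (MonoidAlgebra ℤ G) M] [Module (MonoidAlgebra ℤ G) M']
    (α : M ≃ₗ[MonoidAlgebra ℤ G] M') {k k' : ℕ} (K : Fin k → Subgroup G)
    (L : Fin k → AddSubgroup M) (K' : Fin k' → Subgroup G) (L' : Fin k' → AddSubgroup M') : Prop :=
  ∃ σ : Fin k ≃ Fin k', ∀ i, ∃ g : G,
    (L i).map α.toAddEquiv.toAddMonoidHom = shift g (L' (σ i)) ∧
    ∀ s, s ∈ K i ↔ g⁻¹ * s * g ∈ K' (σ i)

lemma inj {G : Type} [Group G] {M M' : Type} [AddCommGroup M] [AddCommGroup M']
    [Module (MonoidAlgebra ℤ G) M] [Module (MonoidAlgebra ℤ G) M']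
    {φ : HermForm G M} (hpos : φ.Pos) (α : M ≃ₗ[MonoidAlgebra ℤ G] M') {k : ℕ}
    {K : Fin k → Subgroup G} {L : Fin k → AddSubgroup M} (h : Decomposes φ K L)
    (i₁ i₂ : Fin k) (g₁ g₂ : G) (N : AddSubgroup M')
    (h₁ : (L i₁).map α.toAddEquiv.toAddMonoidHom = shift g₁ N)
    (h₂ : (L i₂).map α.toAddEquiv.toAddMonoidHom = shift g₂ N) : i₁ = i₂ := by
  by_contra hne
  have hx' : ∃ x ∈ L i₂, x ≠ 0 := by
    by_contra hcon
    push Not at hcon
    exact h.ne_bot i₂ ((AddSubgroup.eq_bot_iff_forall _).2 hcon)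
  obtain ⟨x, hx, hx0⟩ := hx'
  have h3 : α x ∈ shift g₂ N := by rw [← h₂]; exact ⟨x, hx, rfl⟩
  obtain ⟨z, hz, hzx⟩ := (mem_shift _ _ _).1 h3
  have h4 : rho g₁ z ∈ (L i₁).map α.toAddEquiv.toAddMonoidHom := by rw [h₁]; exact ⟨z, hz, rfl⟩
  obtain ⟨y, hy, hyz⟩ := h4
  have hyz' : α y = rho g₁ z := hyz
  have h5 : x = rho (g₂ * g₁⁻¹) y := by
    apply α.injective
    rw [← hzx, rho_apply (g₂ * g₁⁻¹) y, map_smul, hyz', ← rho_apply, ← act_mul, mul_assoc,
      inv_mul_cancel, mul_one]
  have h6 := h.bil_orth i₂ i₁ (g₂ * g₁⁻¹) (Or.inl (Ne.symm hne)) hx hy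
  rw [← h5] at h6
  exact absurd h6 (φ.bil_pos hpos x hx0).ne'

theorem result (G : Type) [Group G] :
    -- existence
    (∀ (M : Type) [AddCommGroup M] [Module (MonoidAlgebra ℤ G) M]
      [Module.Finite (MonoidAlgebra ℤ G) M] (φ : HermForm G M), φ.Pos →
      ∃ (k : ℕ) (K : Fin k → Subgroup G) (L : Fin k → AddSubgroup M), Decomposes φ K L) ∧
    -- the pieces
    (∀ (M : Type) [AddCommGroup M] [Module (MonoidAlgebra ℤ G) M]
      [Module.Finite (MonoidAlgebra ℤ G) M] (φ : HermForm G M), φ.Pos →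
      ∀ (k : ℕ) (K : Fin k → Subgroup G) (L : Fin k → AddSubgroup M), Decomposes φ K L →
      ∀ i, (K i).FG ∧
        (Module.Projective (MonoidAlgebra ℤ G) M →
          FGProj (K i) (L i) ∧ (Finite (K i) ↔ (L i).FG)) ∧
        (φ.Nonsingular → NonsingularOn φ (K i) (L i))) ∧
    -- uniqueness
    (∀ (M M' : Type) [AddCommGroup M] [AddCommGroup M'] [Module (MonoidAlgebra ℤ G) M]
      [Module (MonoidAlgebra ℤ G) M'] (φ : HermForm G M) (φ' : HermForm G M'), φ.Pos → φ'.Pos →
      ∀ (k k' : ℕ) (K : Fin k → Subgroup G) (L : Fin k → AddSubgroup M)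
        (K' : Fin k' → Subgroup G) (L' : Fin k' → AddSubgroup M'),
        Decomposes φ K L → Decomposes φ' K' L' →
        ∀ α : M ≃ₗ[MonoidAlgebra ℤ G] M', (∀ x y, φ'.val (α x) (α y) = φ.val x y) →
          Correspond α K L K' L') := by
  refine ⟨?_, ?_, ?_⟩
  · intro M _ _ _ φ hpos
    obtain ⟨k, K, L, h, _⟩ := exists_decomposition φ hpos
    exact ⟨k, K, L, h⟩
  · intro M _ _ _ φ hpos k K L h i
    refine ⟨h.group_fg i, fun hP => ⟨h.fgProj hpos i, h.finite_iff hpos i⟩,
      fun hn => h.nonsingularOn hpos hn i⟩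
  · intro M M' _ _ _ _ φ φ' hpos hpos' k k' K L K' L' h h' α hα
    have hu := fun i => h.unique h' hpos hpos' α hα i
    have hα' : ∀ x y, φ.val (α.symm x) (α.symm y) = φ'.val x y := by
      intro x y
      rw [← hα, α.apply_symm_apply, α.apply_symm_apply]
    have hu' := fun i => h'.unique h hpos' hpos α.symm hα' i
    choose σ g hg hK using hu
    choose τ g' hg' hK' using hu'
    have i1 : Function.Injective σ := fun i₁ i₂ he =>
      inj hpos α h i₁ i₂ (g i₁) (g i₂) (L' (σ i₁)) (hg i₁) (by rw [he]; exact hg i₂)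
    have i2 : Function.Injective τ := fun i₁ i₂ he =>
      inj hpos' α.symm h' i₁ i₂ (g' i₁) (g' i₂) (L (τ i₁)) (hg' i₁) (by rw [he]; exact hg' i₂)
    have c1 := Fintype.card_le_of_injective σ i1
    have c2 := Fintype.card_le_of_injective τ i2
    have hb : Function.Bijective σ :=
      (Fintype.bijective_iff_injective_and_card σ).2 ⟨i1, le_antisymm c1 c2⟩
    exact ⟨Equiv.ofBijective σ hb, fun i => ⟨g i, hg i, hK i⟩⟩

end Pool.Agent.Results.MP_551055_al.DefiniteForms
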