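import Pool.Agent.Y75.EK.Main
import Pool.Agent.Y75.SV.Thm

/-!
# The finite rank part and the short vectors of a form on a projective module

Let `G` be torsion-free and let `φ` be a positive definite hermitian form on a finitely generated
projective `ℤG`-module. The submodule generated by the orthogonal summands of finite rank of the
lattice is free and an orthogonal direct summand, and the form on it is extended from a form over
`ℤ`; if `φ` is uniformly positive the submodule generated by the vectors of norm at most two is free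
and the form on it is extended from `ℤ`. The isometries act on both in a monomial way.
-/

set_option autoImplicit false

namespace Pool.Agent.Results.MP_551055_al.FiniteRankPart

open Pool.Agent.Y75.SV Pool.Agent.Y75.EK MonoidAlgebra

/-- The submodule `N` has a finite basis over `ℤG` in which the matrix `A` of the form has entries
in `ℤ` and is positive definite; every isometry `α` of the whole module maps the element `b i` of this
basis to `g i` times a combination of the basis elements with coefficients `U i j` in `ℤ`, for some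
elements `g i` of `G` and some invertible integer matrix `U`; and `A` is invertible over `ℤ` if `S`
holds. -/
def MonomialBasis {G : Type} [Group G] {M : Type} [AddCommGroup M] [Module (MonoidAlgebra ℤ G) M]
    (φ : HermForm G M) (N : Submodule (MonoidAlgebra ℤ G) M) (S : Prop) : Prop :=
  ∃ (k : ℕ) (b : Module.Basis (Fin k) (MonoidAlgebra ℤ G) N) (A : Matrix (Fin k) (Fin k) ℤ),
    (∀ i j, φ.val (b i) (b j) = single 1 (A i j)) ∧
    (∀ c : Fin k → ℤ, c ≠ 0 → 0 < c ⬝ᵥ A.mulVec c) ∧
    (∀ α : M ≃ₗ[MonoidAlgebra ℤ G] M, (∀ x y, φ.val (α x) (α y) = φ.val x y) →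
      ∃ (g : Fin k → G) (U : Matrix (Fin k) (Fin k) ℤ), IsUnit U ∧
        ∀ i, α (b i) = ∑ j, (single (g i) (U i j) : MonoidAlgebra ℤ G) • (b j : M)) ∧
    (S → IsUnit A)

theorem result (G : Type) [Group G] (hG : ∀ (g : G) (n : ℕ), n ≠ 0 → g ^ n = 1 → g = 1)
    (M : Type) [AddCommGroup M] [Module (MonoidAlgebra ℤ G) M]
    [Module.Finite (MonoidAlgebra ℤ G) M] [Module.Projective (MonoidAlgebra ℤ G) M]
    (φ : HermForm G M) :
    -- the part of finite rank
    (φ.Pos → MonomialBasis φ φ.finPart φ.Nonsingular ∧
      (∀ x : M, ∃ y ∈ φ.finPart, ∀ z ∈ φ.finPart, φ.val (x - y) z = 0) ∧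
      (φ.finPart = ⊤ ↔ φ.ExtendedFromInt)) ∧
    -- the short vectors
    (φ.UniformlyPos → MonomialBasis φ φ.shortSpan (φ.Nonsingular ∧ φ.shortSpan = ⊤) ∧
      (φ.shortSpan = ⊤ → φ.ExtendedFromInt ∧ Module.Free (MonoidAlgebra ℤ G) M)) := by
  refine ⟨fun hpos => ?_, fun hφ => ?_⟩
  · obtain ⟨k, b, A, h1, h2, h3, h4, h5⟩ := main_fin hG φ hpos
    exact ⟨⟨k, b, A, h1, h2, h4, h5⟩, h3, extended_of_finPart hG φ hpos,
      finPart_of_extended φ⟩
  · obtain ⟨k, b, A, h1, h2, h3, h4⟩ := main_free hG φ hφ
    refine ⟨⟨k, b, A, h1, h2, h3, fun h => h4 h.1 h.2⟩, fun htop => ?_⟩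
    · have h5 := extended_of_finPart hG φ hφ.1 (finPart_of_short φ hφ htop)
      refine ⟨h5, ?_⟩
      obtain ⟨k, b, A, _⟩ := h5
      exact Module.Free.of_basis b

end Pool.Agent.Results.MP_551055_al.FiniteRankPart
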